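import Mathlib

/-!
# Tarski numbers and Hall's condition

`Paradox G k l` : the group `G` has a paradoxical decomposition with `k` pieces on one side and
`l` pieces on the other. `tarski G` is the Tarski number. By Hall's theorem a decomposition with
translating sets `S₁⁻¹`, `S₂⁻¹` exists if and only if
`|S₁ F₁ ∪ S₂ F₂| ≥ |F₁| + |F₂|` for all finite `F₁, F₂ ⊆ G` (`Expands G S₁ S₂`).
-/

set_option autoImplicit false

open scoped Pointwise

namespace Pool.Agent.Work.MP_ab148e_al

/-- `G` has pairwise disjoint subsets `A 0, …, A (k-1), B 0, …, B (l-1)` such that `G` is the union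
of suitable left translates of the `A i` and also the union of suitable left translates of the
`B j`. -/
def Paradox (G : Type*) [Group G] (k l : ℕ) : Prop :=
  ∃ (A : Fin k → Set G) (B : Fin l → Set G) (g : Fin k → G) (h : Fin l → G),
    Pairwise (fun i j => Disjoint (A i) (A j)) ∧
    Pairwise (fun i j => Disjoint (B i) (B j)) ∧
    (∀ i j, Disjoint (A i) (B j)) ∧
    (⋃ i, (fun x => g i * x) '' A i) = Set.univ ∧
    (⋃ j, (fun x => h j * x) '' B j) = Set.univ

/-- The Tarski number of `G`: the least total number of pieces of a paradoxical decomposition of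
`G`, and `⊤` if there is none. -/
noncomputable def tarski (G : Type*) [Group G] : ℕ∞ :=
  ⨅ (k : ℕ) (l : ℕ) (_ : Paradox G k l), ((k + l : ℕ) : ℕ∞)

/-- Hall's condition for a pair of finite sets of translating elements. -/
def Expands (G : Type*) [Group G] [DecidableEq G] (S T : Finset G) : Prop :=
  ∀ E F : Finset G, E.card + F.card ≤ (S * E ∪ T * F).card

section

variable {G : Type*} [Group G]

lemma tarski_le {k l : ℕ} (h : Paradox G k l) : tarski G ≤ ((k + l : ℕ) : ℕ∞) :=
  iInf_le_of_le k (iInf_le_of_le l (iInf_le _ h))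

lemma exists_of_tarski_ne_top (h : tarski G ≠ ⊤) :
    ∃ k l, Paradox G k l ∧ tarski G = ((k + l : ℕ) : ℕ∞) := by
  classical
  let s : Set ℕ := {n | ∃ k l, Paradox G k l ∧ n = k + l}
  have hs : s.Nonempty := by
    by_contra hcon
    rw [Set.not_nonempty_iff_eq_empty] at hcon
    apply h
    simp only [tarski, iInf_eq_top]
    intro k l hkl
    exfalso
    have : (k + l) ∈ s := ⟨k, l, hkl, rfl⟩
    rw [hcon] at this
    exact this
  obtain ⟨k, l, hkl, hn⟩ := Nat.sInf_mem hs
  refine ⟨k, l, hkl, le_antisymm (tarski_le hkl) ?_⟩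
  simp only [tarski, le_iInf_iff]
  intro k' l' hkl'
  rw [Nat.cast_le, ← hn]
  exact Nat.sInf_le ⟨k', l', hkl', rfl⟩

end

section

variable {G : Type*} [Group G] [DecidableEq G]

/-- Hall's condition gives a paradoxical decomposition. -/
lemma Expands.paradox {S T : Finset G} (h : Expands G S T) : Paradox G S.card T.card := by
  classical
  let t : G ⊕ G → Finset G := Sum.elim (fun x => S * {x}) (fun x => T * {x})
  have hall : ∀ s : Finset (G ⊕ G), s.card ≤ (s.biUnion t).card := by
    intro s
    have h1 : s.card = s.toLeft.card + s.toRight.card := (Finset.card_toLeft_add_card_toRight).symm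
    have h2 : s.biUnion t = S * s.toLeft ∪ T * s.toRight := by
      ext z
      simp only [Finset.mem_biUnion, Finset.mem_union, Finset.mem_mul, Finset.mem_toLeft,
        Finset.mem_toRight, t]
      constructor
      · rintro ⟨x | x, hx, hz⟩
        · left
          simp only [Sum.elim_inl, Finset.mem_mul, Finset.mem_singleton] at hz
          obtain ⟨a, ha, b, rfl, rfl⟩ := hz
          exact ⟨a, ha, b, hx, rfl⟩
        · right
          simp only [Sum.elim_inr, Finset.mem_mul, Finset.mem_singleton] at hz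
          obtain ⟨a, ha, b, rfl, rfl⟩ := hz
          exact ⟨a, ha, b, hx, rfl⟩
      · rintro (⟨a, ha, b, hb, rfl⟩ | ⟨a, ha, b, hb, rfl⟩)
        · exact ⟨Sum.inl b, hb, Finset.mul_mem_mul ha (Finset.mem_singleton_self b)⟩
        · exact ⟨Sum.inr b, hb, Finset.mul_mem_mul ha (Finset.mem_singleton_self b)⟩
    rw [h1, h2]
    exact h _ _
  obtain ⟨f, hf, hft⟩ := (Finset.all_card_le_biUnion_card_iff_exists_injective t).1 hall
  let eS := S.equivFin
  let eT := T.equivFin
  refine ⟨fun i => {y | ∃ x, f (Sum.inl x) = y ∧ y = (eS.symm i : G) * x},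
    fun j => {y | ∃ x, f (Sum.inr x) = y ∧ y = (eT.symm j : G) * x},
    fun i => (eS.symm i : G)⁻¹, fun j => (eT.symm j : G)⁻¹, ?_, ?_, ?_, ?_, ?_⟩
  · intro i j hij
    rw [Set.disjoint_left]
    rintro y ⟨x, hx, hxy⟩ ⟨x', hx', hxy'⟩
    apply hij
    have h1 : x = x' := Sum.inl_injective (hf (hx.trans hx'.symm))
    subst h1
    have h2 : (eS.symm i : G) = eS.symm j := mul_right_cancel (hxy.symm.trans hxy')
    exact eS.symm.injective (Subtype.ext h2)
  · intro i j hij
    rw [Set.disjoint_left]
    rintro y ⟨x, hx, hxy⟩ ⟨x', hx', hxy'⟩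
    apply hij
    have h1 : x = x' := Sum.inr_injective (hf (hx.trans hx'.symm))
    subst h1
    have h2 : (eT.symm i : G) = eT.symm j := mul_right_cancel (hxy.symm.trans hxy')
    exact eT.symm.injective (Subtype.ext h2)
  · intro i j
    rw [Set.disjoint_left]
    rintro y ⟨x, hx, hxy⟩ ⟨x', hx', hxy'⟩
    exact Sum.inl_ne_inr (hf (hx.trans hx'.symm))
  · rw [Set.eq_univ_iff_forall]
    intro x
    have h1 := hft (Sum.inl x)
    simp only [t, Sum.elim_inl, Finset.mem_mul, Finset.mem_singleton] at h1
    obtain ⟨a, ha, b, rfl, hab⟩ := h1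
    rw [Set.mem_iUnion]
    refine ⟨eS ⟨a, ha⟩, f (Sum.inl b), ⟨b, rfl, ?_⟩, ?_⟩
    · simp [hab]
    · simp [← hab]
  · rw [Set.eq_univ_iff_forall]
    intro x
    have h1 := hft (Sum.inr x)
    simp only [t, Sum.elim_inr, Finset.mem_mul, Finset.mem_singleton] at h1
    obtain ⟨a, ha, b, rfl, hab⟩ := h1
    rw [Set.mem_iUnion]
    refine ⟨eT ⟨a, ha⟩, f (Sum.inr b), ⟨b, rfl, ?_⟩, ?_⟩
    · simp [hab]
    · simp [← hab]

/-- A paradoxical decomposition gives Hall's condition. -/
lemma Paradox.expands {k l : ℕ} (h : Paradox G k l) :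
    ∃ S T : Finset G, S.card ≤ k ∧ T.card ≤ l ∧ Expands G S T := by
  classical
  obtain ⟨A, B, g, h, hA, hB, hAB, hgA, hhB⟩ := h
  refine ⟨Finset.univ.image fun i => (g i)⁻¹, Finset.univ.image fun j => (h j)⁻¹, ?_, ?_, ?_⟩
  · exact Finset.card_image_le.trans (by simp)
  · exact Finset.card_image_le.trans (by simp)
  intro E F
  have h1 : ∀ x : G, ∃ i, (g i)⁻¹ * x ∈ A i := by
    intro x
    have hx : x ∈ ⋃ i, (fun x => g i * x) '' A i := by rw [hgA]; trivial
    rw [Set.mem_iUnion] at hx
    obtain ⟨i, y, hy, rfl⟩ := hx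
    exact ⟨i, by simpa using hy⟩
  have h2 : ∀ x : G, ∃ j, (h j)⁻¹ * x ∈ B j := by
    intro x
    have hx : x ∈ ⋃ i, (fun x => h i * x) '' B i := by rw [hhB]; trivial
    rw [Set.mem_iUnion] at hx
    obtain ⟨i, y, hy, rfl⟩ := hx
    exact ⟨i, by simpa using hy⟩
  choose p hp using h1
  choose q hq using h2
  have hpi : Function.Injective fun x => (g (p x))⁻¹ * x := by
    intro x x' hxx
    simp only at hxx
    have h3 : p x = p x' := by
      by_contra hne
      have := Set.disjoint_left.1 (hA hne) (hp x)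
      rw [hxx] at this
      exact this (hp x')
    rw [h3] at hxx
    exact mul_left_cancel hxx
  have hqi : Function.Injective fun x => (h (q x))⁻¹ * x := by
    intro x x' hxx
    simp only at hxx
    have h3 : q x = q x' := by
      by_contra hne
      have := Set.disjoint_left.1 (hB hne) (hq x)
      rw [hxx] at this
      exact this (hq x')
    rw [h3] at hxx
    exact mul_left_cancel hxx
  rw [← Finset.card_image_of_injective E hpi, ← Finset.card_image_of_injective F hqi,
    ← Finset.card_union_of_disjoint]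
  · apply Finset.card_le_card
    apply Finset.union_subset_union
    · intro z hz
      rw [Finset.mem_image] at hz
      obtain ⟨x, hx, rfl⟩ := hz
      exact Finset.mul_mem_mul (Finset.mem_image_of_mem _ (Finset.mem_univ _)) hx
    · intro z hz
      rw [Finset.mem_image] at hz
      obtain ⟨x, hx, rfl⟩ := hz
      exact Finset.mul_mem_mul (Finset.mem_image_of_mem _ (Finset.mem_univ _)) hx
  · rw [Finset.disjoint_left]
    intro z hz hz'
    rw [Finset.mem_image] at hz hz'
    obtain ⟨x, hx, rfl⟩ := hz
    obtain ⟨x', hx', hxx⟩ := hz'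
    have := Set.disjoint_left.1 (hAB (p x) (q x')) (hp x)
    rw [← hxx] at this
    exact this (hq x')

/-- Translating one of the two sets of translating elements on the right. -/
lemma Expands.translate {S T : Finset G} (h : Expands G S T) (s t : G) :
    Expands G (S * {s}) (T * {t}) := by
  intro E F
  have h1 := h ({s} * E) ({t} * F)
  rw [mul_assoc, mul_assoc]
  calc E.card + F.card = ({s} * E).card + ({t} * F).card := by
        rw [Finset.card_singleton_mul, Finset.card_singleton_mul]
    _ ≤ _ := h1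

lemma Expands.mono {S T S' T' : Finset G} (h : Expands G S T) (hS : S ⊆ S') (hT : T ⊆ T') :
    Expands G S' T' := fun E F =>
  (h E F).trans (Finset.card_le_card (Finset.union_subset_union
    (Finset.mul_subset_mul_right hS) (Finset.mul_subset_mul_right hT)))

lemma Expands.nonempty {S T : Finset G} (h : Expands G S T) : S.Nonempty ∧ T.Nonempty := by
  constructor
  · by_contra hcon
    rw [Finset.not_nonempty_iff_eq_empty] at hcon
    have := h {1} ∅
    simp [hcon] at this
  · by_contra hcon
    rw [Finset.not_nonempty_iff_eq_empty] at hcon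
    have := h ∅ {1}
    simp [hcon] at this

/-- Normalised form: both sets contain `1`. -/
lemma Paradox.expands_one {k l : ℕ} (h : Paradox G k l) :
    ∃ S T : Finset G, S.card ≤ k ∧ T.card ≤ l ∧ 1 ∈ S ∧ 1 ∈ T ∧ Expands G S T := by
  obtain ⟨S, T, hS, hT, hST⟩ := h.expands
  obtain ⟨⟨s, hs⟩, ⟨t, ht⟩⟩ := hST.nonempty
  refine ⟨S * {s⁻¹}, T * {t⁻¹}, ?_, ?_, ?_, ?_, hST.translate _ _⟩
  · rwa [Finset.card_mul_singleton]
  · rwa [Finset.card_mul_singleton]
  · rw [Finset.mem_mul]
    exact ⟨s, hs, s⁻¹, by simp, by simp⟩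
  · rw [Finset.mem_mul]
    exact ⟨t, ht, t⁻¹, by simp, by simp⟩

end

section prod

variable {G H : Type*} [Group G] [Group H] [DecidableEq G] [DecidableEq H]

/-- The basic inequality for boxes in a direct product. -/
lemma Expands.box {S T : Finset (G × H)} (h : Expands (G × H) S T) (Y Z : Finset G)
    (Y' Z' : Finset H) :
    Y.card * Y'.card + Z.card * Z'.card ≤
      (S.image Prod.fst * Y ∪ T.image Prod.fst * Z).card *
      (S.image Prod.snd * Y' ∪ T.image Prod.snd * Z').card := by
  have h1 := h (Y ×ˢ Y') (Z ×ˢ Z')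
  rw [Finset.card_product, Finset.card_product] at h1
  refine h1.trans ?_
  rw [← Finset.card_product]
  apply Finset.card_le_card
  intro z hz
  rw [Finset.mem_union, Finset.mem_mul, Finset.mem_mul] at hz
  rw [Finset.mem_product]
  rcases hz with ⟨s, hs, y, hy, rfl⟩ | ⟨s, hs, y, hy, rfl⟩
  · rw [Finset.mem_product] at hy
    exact ⟨Finset.mem_union_left _ (Finset.mul_mem_mul (Finset.mem_image_of_mem _ hs) hy.1),
      Finset.mem_union_left _ (Finset.mul_mem_mul (Finset.mem_image_of_mem _ hs) hy.2)⟩
  · rw [Finset.mem_product] at hy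
    exact ⟨Finset.mem_union_right _ (Finset.mul_mem_mul (Finset.mem_image_of_mem _ hs) hy.1),
      Finset.mem_union_right _ (Finset.mul_mem_mul (Finset.mem_image_of_mem _ hs) hy.2)⟩

end prod

end Pool.Agent.Work.MP_ab148e_al
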