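import Pool.Agent.Work.MP_ab148e_al.Basic

set_option autoImplicit false

open scoped Pointwise

namespace Pool.Agent.Work.MP_ab148e_al

section count

variable {G : Type*} [Group G] [DecidableEq G]

/-- Counting a product set when both factors contain `1`. -/
lemma card_mul_le_sub {P Q : Finset G} (h1 : 1 ∈ P) (hQP : Q ⊆ P) (h1Q : 1 ∈ Q) :
    (Q * P).card + Q.card ≤ Q.card * P.card + 1 := by
  have h2 : Q * P ⊆ (((Q ×ˢ P) \ ((Q.erase 1) ×ˢ {1})).image fun z => z.1 * z.2) := by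
    intro z hz
    rw [Finset.mem_mul] at hz
    obtain ⟨a, ha, b, hb, rfl⟩ := hz
    rw [Finset.mem_image]
    by_cases hb1 : b = 1
    · refine ⟨(1, a), ?_, by simp [hb1]⟩
      rw [Finset.mem_sdiff, Finset.mem_product, Finset.mem_product]
      exact ⟨⟨h1Q, hQP ha⟩, by simp⟩
    · refine ⟨(a, b), ?_, rfl⟩
      rw [Finset.mem_sdiff, Finset.mem_product, Finset.mem_product]
      exact ⟨⟨ha, hb⟩, by simp [hb1]⟩
  have h3 : ((Q.erase 1) ×ˢ ({1} : Finset G)) ⊆ Q ×ˢ P :=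
    Finset.product_subset_product (Finset.erase_subset _ _) (by simpa using h1)
  have h4 := (Finset.card_le_card h2).trans Finset.card_image_le
  rw [Finset.card_sdiff_of_subset h3, Finset.card_product, Finset.card_product,
    Finset.card_singleton, mul_one, Finset.card_erase_of_mem h1Q] at h4
  have h5 : 1 ≤ Q.card := Finset.card_pos.2 ⟨1, h1Q⟩
  have h6 : Q.card ≤ Q.card * P.card := Nat.le_mul_of_pos_right _ (Finset.card_pos.2 ⟨1, h1⟩)
  omega

lemma card_mul_le_sub' {P Q : Finset G} (h1 : 1 ∈ P) (hQP : Q ⊆ P) (h1Q : 1 ∈ Q) :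
    (P * Q).card + Q.card ≤ Q.card * P.card + 1 := by
  have h2 : P * Q ⊆ (((P ×ˢ Q) \ ({1} ×ˢ (Q.erase 1))).image fun z => z.1 * z.2) := by
    intro z hz
    rw [Finset.mem_mul] at hz
    obtain ⟨a, ha, b, hb, rfl⟩ := hz
    rw [Finset.mem_image]
    by_cases ha1 : a = 1
    · refine ⟨(b, 1), ?_, by simp [ha1]⟩
      rw [Finset.mem_sdiff, Finset.mem_product, Finset.mem_product]
      exact ⟨⟨hQP hb, h1Q⟩, by simp⟩
    · refine ⟨(a, b), ?_, rfl⟩
      rw [Finset.mem_sdiff, Finset.mem_product, Finset.mem_product]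
      exact ⟨⟨ha, hb⟩, by simp [ha1]⟩
  have h3 : (({1} : Finset G) ×ˢ (Q.erase 1)) ⊆ P ×ˢ Q :=
    Finset.product_subset_product (by simpa using h1) (Finset.erase_subset _ _)
  have h4 := (Finset.card_le_card h2).trans Finset.card_image_le
  rw [Finset.card_sdiff_of_subset h3, Finset.card_product, Finset.card_product,
    Finset.card_singleton, one_mul, Finset.card_erase_of_mem h1Q, mul_comm] at h4
  have h5 : 1 ≤ Q.card := Finset.card_pos.2 ⟨1, h1Q⟩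
  have h6 : Q.card ≤ Q.card * P.card := Nat.le_mul_of_pos_right _ (Finset.card_pos.2 ⟨1, h1⟩)
  omega

/-- Arithmetic for the quadratic bound. -/
lemma arith {p q r x y n : ℕ} (hr : 1 ≤ r) (hrpq : r + 1 ≤ p + q)
    (hpq : p + q ≤ n) (hx : x + p ≤ p * r + 1) (hy : y + q ≤ q * r + 1) :
    x + y ≤ (n - 1) ^ 2 + 1 := by
  obtain ⟨m, rfl⟩ : ∃ m, n = m + 2 := ⟨n - 2, by omega⟩
  obtain ⟨r', rfl⟩ : ∃ r', r = r' + 1 := ⟨r - 1, by omega⟩
  have h1 : x + y ≤ (p + q) * r' + 2 := by nlinarith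
  have h2 : r' ≤ m := by omega
  have h3 : (p + q) * r' ≤ (m + 2) * m := Nat.mul_le_mul hpq h2
  have h4 : (m + 2 - 1) ^ 2 = m * m + 2 * m + 1 := by
    have : m + 2 - 1 = m + 1 := rfl
    rw [this]; ring
  rw [h4]
  nlinarith

end count

section prod

variable {G H : Type*} [Group G] [Group H] [DecidableEq G] [DecidableEq H]

/-- The alternative behind the quadratic bound. -/
lemma Expands.quadratic {S T : Finset (G × H)} (h : Expands (G × H) S T)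
    {P₁ P₂ P : Finset G} {Q₁ Q₂ Q : Finset H}
    (hP₁ : P₁ = S.image Prod.fst) (hP₂ : P₂ = T.image Prod.fst) (hP : P = P₁ ∪ P₂)
    (hQ₁ : Q₁ = S.image Prod.snd) (hQ₂ : Q₂ = T.image Prod.snd) (hQ : Q = Q₁ ∪ Q₂) :
    Expands G (P₁ * P) (P₂ * P) ∨ Expands H (Q * Q₁) (Q * Q₂) := by
  by_contra hcon
  push Not at hcon
  obtain ⟨hG, hH⟩ := hcon
  simp only [Expands, not_forall, not_le] at hG hH
  obtain ⟨E, F, hEF⟩ := hG
  obtain ⟨E', F', hEF'⟩ := hH
  have b1 := h.box E E E' F'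
  have b2 := h.box F F E' F'
  rw [← hP₁, ← hP₂, ← hQ₁, ← hQ₂, ← Finset.union_mul, ← hP] at b1 b2
  have b3 := h.box (P * E) (P * F) (Q₁ * E' ∪ Q₂ * F') (Q₁ * E' ∪ Q₂ * F')
  rw [← hP₁, ← hP₂, ← hQ₁, ← hQ₂, ← Finset.union_mul, ← hQ, Finset.mul_union, ← mul_assoc,
    ← mul_assoc, ← mul_assoc, ← mul_assoc] at b3
  have h3 := Nat.mul_lt_mul'' hEF hEF'
  have h4 : (E.card + F.card) * (E'.card + F'.card) =
    (E.card * E'.card + E.card * F'.card) + (F.card * E'.card + F.card * F'.card) := by ring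
  omega

/-- The alternative behind the linear bound. -/
lemma Expands.linear {S T : Finset (G × H)} (h : Expands (G × H) S T)
    {P₁ P₂ P : Finset G} {Q₁ Q₂ : Finset H} (hP1 : 1 ∈ P₁) (hQ1 : 1 ∈ Q₁)
    (hP₁ : P₁ = S.image Prod.fst) (hP₂ : P₂ = T.image Prod.fst) (hP : P = P₁ ∪ P₂)
    (hQ₁ : Q₁ = S.image Prod.snd) (hQ₂ : Q₂ = T.image Prod.snd) :
    Expands G (P₁ * P₁ * P) (P₁ * P₂) ∨
      Expands H (Q₁ * Q₁ * Q₁ ∪ Q₂) (Q₁ * Q₁ * Q₂) := by
  by_contra hcon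
  push Not at hcon
  obtain ⟨hG, hH⟩ := hcon
  simp only [Expands, not_forall, not_le] at hG hH
  obtain ⟨E, F, hEF⟩ := hG
  obtain ⟨E', F', hEF'⟩ := hH
  have b1 := h.box E E E' F'
  rw [← hP₁, ← hP₂, ← hQ₁, ← hQ₂, ← Finset.union_mul, ← hP] at b1
  have b2 := h.box (P * E) F (Q₁ * E' ∪ Q₂ * F') F'
  rw [← hP₁, ← hP₂, ← hQ₁, ← hQ₂] at b2
  have b3 := h.box (P₁ * (P * E) ∪ P₂ * F) F (Q₁ * (Q₁ * E' ∪ Q₂ * F') ∪ Q₂ * F') E'
  rw [← hP₁, ← hP₂, ← hQ₁, ← hQ₂] at b3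
  have e1 : P₁ * (P₁ * (P * E) ∪ P₂ * F) ∪ P₂ * F ⊆ P₁ * P₁ * P * E ∪ P₁ * P₂ * F := by
    rw [Finset.mul_union, ← mul_assoc, ← mul_assoc, ← mul_assoc, Finset.union_assoc]
    apply Finset.union_subset_union subset_rfl
    apply Finset.union_subset subset_rfl
    rw [mul_assoc]
    exact Finset.subset_mul_right _ hP1
  have e2 : Q₁ * (Q₁ * (Q₁ * E' ∪ Q₂ * F') ∪ Q₂ * F') ∪ Q₂ * E' ⊆
      (Q₁ * Q₁ * Q₁ ∪ Q₂) * E' ∪ Q₁ * Q₁ * Q₂ * F' := by
    have e3 : Q₂ * F' ⊆ Q₁ * (Q₂ * F') := Finset.subset_mul_right _ hQ1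
    have e5 : Q₁ * (Q₁ * E' ∪ Q₂ * F') ∪ Q₂ * F' = Q₁ * (Q₁ * E') ∪ Q₁ * (Q₂ * F') := by
      rw [Finset.mul_union, Finset.union_assoc, Finset.union_eq_left.2 e3]
    have e4 : Q₁ * (Q₁ * (Q₁ * E' ∪ Q₂ * F') ∪ Q₂ * F') ⊆
        Q₁ * Q₁ * Q₁ * E' ∪ Q₁ * Q₁ * Q₂ * F' := by
      rw [e5, Finset.mul_union]
      simp only [mul_assoc]
      exact subset_rfl
    rw [Finset.union_mul]
    intro z hz
    rw [Finset.mem_union] at hz
    rcases hz with hz | hz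
    · have := e4 hz
      simp only [Finset.mem_union] at this ⊢
      tauto
    · simp only [Finset.mem_union]
      tauto
  have h3 := Nat.mul_lt_mul'' hEF hEF'
  have h5 := Nat.mul_le_mul (Finset.card_le_card e1) (Finset.card_le_card e2)
  have h4 : (E.card + F.card) * (E'.card + F'.card) =
    (E.card * E'.card + E.card * F'.card) + F.card * F'.card + F.card * E'.card := by ring
  omega

end prod

end Pool.Agent.Work.MP_ab148e_al
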